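import Pool.Agent.U66.Main

/-!
# A uniform ultrafilter of singular character over a strong limit singular cardinal

If `κ` is an indestructibly supercompact cardinal and there is a supercompact cardinal above `κ`,
then some forcing notion makes `κ` a strong limit cardinal of countable cofinality and forces
that there is a uniform ultrafilter over `κ` whose character is a singular cardinal `χ` with
`κ < χ < 2 ^ κ`.

Idea of the proof. Let `W` be a normal fine ultrafilter on the set of all subsets of `L` of size
less than `κ'`, where `κ'` is supercompact and `L` has a size of cofinality `κ⁺` above `κ'`, and
let `c i`, `i ∈ I`, be members of `W`. Let `P` be the forcing adding Cohen functions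
`g i : κ → V_κ`, `i ∈ I`, and one more such function `g`. By supercompactness in the extension
by `P` there is a normal measure `U` on `κ`, chosen with master conditions, for which
`γ ↦ g γ` represents the restriction of `W` to a small set `x` and `γ ↦ g i γ` represents the
restriction of the set `c i` to `x`. After Prikry forcing for `U` with generic sequence `γ n`,
the sum of the ultrafilters `g (γ n)` along an ultrafilter on the natural numbers is a uniform
ultrafilter over `κ`. If the family of the `c i` is closed under a certain operation `Φ`, taking
`κ` many members of `W` to a member of `W`, then the sums of the sets `g i (γ n)` form a base,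
and `i ↦ c i` reflects inclusion, so the character is the cofinality of the family of the `c i`
under reverse inclusion. A closed family of size and cofinality `|L|` exists, as `W` is fine, and
by reflection at `κ'` there is also one of size and cofinality a singular `χ < κ'`; the index
set `I` can be taken of size greater than `χ`, with repetitions, so that `χ < 2 ^ κ`.
-/

set_option autoImplicit false

namespace Pool.Agent.Results.MP_73396e_lc.SingularCharacter

open Cardinal Pool.Agent.U66 Pool.Agent.R588.S

theorem result (κ κ' : Cardinal.{0}) (hκ : IndestructiblySupercompact κ)
    (hκ' : Supercompact κ') (hlt : κ < κ') :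
    ∃ χ : Cardinal.{0}, κ < χ ∧ ¬ χ.IsRegular ∧
      ∃ (Q : Type) (_ : Preorder Q), Nonempty Q ∧ ∀ q : Q, q ∈ StrongLimitN Q κ ∧
        q ∈ CofOmegaN Q κ ∧ q ∈ CardinalsAbove Q κ ∧ q ∈ SingularN Q χ ∧
        q ∈ PowerGt Q κ.ord.ToType χ ∧ q ∈ HasCharacter Q κ.ord.ToType χ :=
  main hκ hlt hκ'

end Pool.Agent.Results.MP_73396e_lc.SingularCharacter
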